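import Pool.Agent.H57.KuF

set_option autoImplicit false

namespace Pool.Agent.Results.MP_47bc22_lc.UnderMA

open Cardinal Set Pool.Agent.H57.Lots Pool.Agent.H57.Aro Pool.Agent.H57.Kd

/-- Codes of regular Kurepa trees on `ω₁`; `π` is the pairing and `z`, `o` stand for `0`, `1`. -/
def K (π : W1 × W1 ≃ W1) (z o : W1) : Set Ba :=
  {x | (∀ η, x η = z ∨ x η = o) ∧ RegTree (fun s t => x (π (s, t)) = o) ∧
    ℵ_ 2 ≤ #(UB fun s t => x (π (s, t)) = o)}

theorem result (hMA : MA1) (π : W1 × W1 ≃ W1) (z o : W1) :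
    Sigma12 (K π z o) ∧ Sigma12 (K π z o)ᶜ := by
  obtain ⟨ν⟩ : Nonempty (ℕ ↪ W1) := (Cardinal.le_def _ _).1
    (by rw [mk_W1, mk_nat]; exact aleph0_lt_aleph_one.le)
  have h := delta ((sg_cl (cl_all fun η => lc_cl (lc_app continuous_id (.const η))
    fun y => y = z ∨ y = o)).and (sg_reg π o)) (sg_ws π o (range ν))
  have e : ℵ_ 2 = Order.succ (ℵ₁ : Cardinal.{0}) := by
    rw [succ_aleph, one_add_one_eq_two]
  have k : K π z o = {x | ((∀ η, x η = z ∨ x η = o) ∧ RegTree fun s t => x (π (s, t)) = o) ∧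
      ¬ ∃ f : W1 → W1, (∀ s, f s ∈ range ν) ∧ WS (fun s t => x (π (s, t)) = o) f} := by
    refine Set.ext fun x => and_assoc.symm.trans (and_congr_right fun a => ?_)
    rw [e, Order.succ_le_iff, ← not_le]
    refine not_congr ⟨fun b => ?_, fun ⟨f, f1, f2⟩ => few a.2.tr0 (countable_range ν) f1 f2⟩
    obtain ⟨f, hf⟩ := wspec hMA a.2.tr0 b
    exact ⟨fun s => ν (f s), fun s => ⟨_, rfl⟩, fun s t u a1 a2 a3 a4 =>
      hf s t u a1 a2 (ν.injective a3) (ν.injective a4)⟩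
  rw [k]
  exact h

end Pool.Agent.Results.MP_47bc22_lc.UnderMA
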